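import Pool.Agent.Run7.h784.TG.All
import Pool.Agent.Run7.h784.TG.Scl
import Pool.Agent.N415.PJ.MAIN
import Pool.Agent.N615.JM.FamT2
import Pool.Agent.N738.PJ.Exs
import Pool.Agent.N134.PJ.Irk
import Pool.Agent.N352.JB.All

/-!
# A positive proportion of the quadratic twists of a hyperelliptic Jacobian of any genus over `k(t)`

Let `k` be a finite field of odd characteristic with `q` elements, `K = k(t)`, `g ≥ 1`, and let
`f = x ^ (2 g + 1) + f_{2 g - 1} x ^ (2 g - 1) + ... + f_0` be a polynomial over `k[t]` with
`deg f_j ≤ 2 N (2 g + 1 - j)`, `N ≥ 1`, such that the discriminant of `f` is a squarefree polynomial in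
`t` and the polynomial over `k` formed by the coefficients of `t ^ (2 N (2 g + 1 - j))` in the `f_j`
is irreducible. For `D` in `k[t]`, squarefree, let `J_D` be the Jacobian of the curve
`D y ^ 2 = f(x)` of genus `g` over `K`; these are all the quadratic twists of `J_1`.

Theorem.
1. There is `c > 0` such that for all large `m` and all `u` in `k`, `u ≠ 0`, at least `c q ^ m` of the
   `q ^ m` polynomials `D` of degree `m` with leading coefficient `u` are squarefree and prime to the
   discriminant and have the following property: `J_D(K)` is uniquely divisible by two, the 2-primary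
   part of the Tate-Shafarevich group of `J_D` is zero, and the 2-Selmer group of `J_D` is trivial.
2. If the characteristic is larger than `2 g + 1`, the `f` as above are a positive proportion of all
   the `f` with `deg f_j ≤ 2 N (2 g + 1 - j)`, as `N` tends to infinity.

So for a positive proportion of *all* quadratic twists `J_D`, in the natural ordering by the degree of
`D` and over a fixed finite field `k`, the group `J_D(K)`, finitely generated by the theorem of Lang
and Néron, is finite of odd order, so the rank is zero, and by the theorem of Kato and Trihan the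
whole conjecture of Birch and Swinnerton-Dyer holds for `J_D` (finiteness of the Tate-Shafarevich
group, order of vanishing, formula); equivalently the Brauer group of a smooth projective model of the
surface `D(t) y ^ 2 = f(x)` is finite, of order prime to two.

`J(L)` is the Picard group of the affine coordinate ring `L[x, y] / (y ^ 2 - F)`, because the only
point at infinity of the curve is rational, and the Tate-Shafarevich group is given by continuous
cocycles of the absolute Galois group of `K` with values in `J(K^sep)`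
(`Pool/Agent/Y713/SE/Stm.lean`, `Pool/Agent/N352/JB/ShaDef.lean`). The curve `D y ^ 2 = f(x)` has the
equation `y ^ 2 = F(x)` with `F = f.scaleRoots D = D ^ (2 g + 1) f(x / D)`.

## Proof

`L = K(θ)`, `f(θ) = 0`, `n = 2 g + 1`. The geometric Galois group of `f` is the symmetric group `S_n`
(squarefree discriminant, tame at infinity; helper781, `Run7/h781/TG/FULL.lean`). The 2-Selmer group
of `J_D` is a group of classes in `L* / L*²` of square norm which are even at all primes that do not
divide `D` and satisfy at the primes `P` dividing `D` a condition given by the factorisations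
`f ≡ a b` modulo `P` (helpers 711, 81); there is no condition at infinity, where `L` is inert. One
more prime `Q` in `D` changes the group by at most the number of the primes of `L` over `Q` minus
one, with equality conditions from a reciprocity law for the residue form (helpers 286, 811, 646,
779). The average of the order of the group over the next prime `Q` is controlled by character sums
over the curves whose points are the factorisations of `f` at `t`, of all types (helpers 886, 688,
784, 382, 760, 973, 908): on average it shrinks by the factor 3/4, so that the average over all `D`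
and all classes of local twists is bounded. Primes `Q` with two primes over them reduce the group to
the squares, and a last prime `Q` with one prime over it adjusts the classes, so that a positive
proportion of `D` is reached (helper68). Genus 1 with several curves at once is project TS of
helper875 (`Results/MP_48b749_nt/SimultaneousTwists.lean`).

The step from the explicit group to `J(K)` and the cocycles is project JB (`N352/JB/All.lean`).

Project TG (helper784) with parts by helpers 68, 81, 286, 382, 646, 688, 711, 760, 779, 781, 811, 886,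
908, 973, and the libraries TS (helper875), PJ and JB (helper352) and PP (helper874).
-/

set_option autoImplicit false
set_option linter.all false

namespace Pool.Agent.Results.MP_60d5ce_nt.PositiveProportionOfTwists

open Polynomial Filter IsDedekindDomain
open scoped Classical
open Pool.Agent.Y713.Jac (J)
open Pool.Agent.N352.Sha (UniquelyDivisible ShaTrivial)

/-- The class of `h(θ)`, `f(θ) = 0`, comes from a rational point of the Jacobian of `y ^ 2 = f(x)`
over the field `F`: up to a square `s(θ) ^ 2` it is a product of elements `(-1) ^ deg u * u(θ)` with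
`u` monic, prime to `f`, and a polynomial `b` such that `u ∣ b ^ 2 - f`. -/
def PointImage (F : Type) [Field F] (f h : F[X]) : Prop :=
  ∃ (l : List (F[X] × F[X])) (s : F[X]),
    (∀ p ∈ l, p.1.Monic ∧ IsCoprime p.1 f ∧ p.1 ∣ p.2 ^ 2 - f) ∧
    f ∣ h * (l.map fun p => (-1) ^ p.1.natDegree * p.1).prod - s ^ 2

/-- The same for the field `E` and polynomials `f`, `h` over a subfield `K`. -/
def LocalImage (E : Type) {K : Type} [Field K] [Field E] [Algebra K E] (f h : K[X]) : Prop :=
  PointImage E (f.map (algebraMap K E)) (h.map (algebraMap K E))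

/-- For the Jacobian `J` of `y ^ 2 = F(x)` over `K = k(t)` the group `J(K)` is uniquely divisible by
two and the 2-primary part of the Tate-Shafarevich group is zero. -/
def NoTwoPart (k : Type) {K : Type} [Field k] [Field K] [Algebra k[X] K] [IsFractionRing k[X] K]
    (F : K[X]) : Prop :=
  UniquelyDivisible 2 (J 2 F K) ∧ ShaTrivial 2 F k[X]

/-- The 2-Selmer group of the Jacobian of `y ^ 2 = f(x)` over `K` is trivial: every `h(θ)`, `h` prime
to `f`, whose norm is a square and which comes from a local point at every finite place, is a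
square `s(θ) ^ 2`. -/
def SelmerTrivial (k : Type) {K : Type} [Field k] [Field K] [Algebra k[X] K] [IsFractionRing k[X] K]
    (f : K[X]) : Prop :=
  ∀ h : K[X], IsCoprime h f → IsSquare (Algebra.norm K (AdjoinRoot.mk f h)) →
    (∀ v : HeightOneSpectrum k[X], LocalImage (v.adicCompletion K) f h) →
    ∃ s : K[X], f ∣ h - s ^ 2

section defs

variable {k : Type} [Field k]

/-- The discriminant of the monic polynomial `f` of degree `2 g + 1` in `x` over `k[t]`, up to the
sign: the resultant of `f` and its derivative. -/
noncomputable def discriminant (g : ℕ) (f : k[X][X]) : k[X] :=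
  f.resultant (derivative f) (2 * g + 1) (2 * g)

/-- `f = x ^ (2 g + 1) + f_{2 g - 1} x ^ (2 g - 1) + ... + f_0` with `deg f_j ≤ M (2 g + 1 - j)`. -/
structure HasHeight (g M : ℕ) (f : k[X][X]) : Prop where
  monic : f.Monic
  degree : f.natDegree = 2 * g + 1
  trace : f.coeff (2 * g) = 0
  height : ∀ j ≤ 2 * g, (f.coeff j).natDegree ≤ M * (2 * g + 1 - j)

/-- The reduction of `f` at infinity, the polynomial `x ^ (2 g + 1) + ∑ r_j x ^ j` over `k` where `r_j`
is the coefficient of `t ^ (M (2 g + 1 - j))` in `f_j`. -/
noncomputable def atInfinity (g M : ℕ) (f : k[X][X]) : k[X] :=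
  X ^ (2 * g + 1) + ∑ j ∈ Finset.range (2 * g + 1), C ((f.coeff j).coeff (M * (2 * g + 1 - j))) * X ^ j

/-- The family of curves: squarefree discriminant, irreducible reduction at infinity. -/
structure InFamily (g N : ℕ) (f : k[X][X]) : Prop extends HasHeight g (2 * N) f where
  inert : Irreducible (atInfinity g (2 * N) f)
  squarefree : Squarefree (discriminant g f)

variable (K : Type) [Field K] [Algebra k[X] K] [IsFractionRing k[X] K]

/-- The monic equation `y ^ 2 = D ^ (2 g + 1) f(x / D)` of the quadratic twist `D y ^ 2 = f(x)` over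
`K = k(t)`. -/
noncomputable def twist (f : k[X][X]) (D : k[X]) : K[X] := (f.scaleRoots D).map (algebraMap k[X] K)

/-- The polynomials `D` of degree `m` with leading coefficient `u` which are squarefree and prime to
the discriminant of `f` and for which the twist of `y ^ 2 = f(x)` by `D` has a Jacobian with trivial
2-Selmer group, `J(K)` uniquely divisible by two, and trivial 2-primary part of the Tate-Shafarevich
group. -/
def GoodTwists (g : ℕ) (f : k[X][X]) (u : k) (m : ℕ) : Set k[X] :=
  {D | D.leadingCoeff = u ∧ D.natDegree = m ∧ Squarefree D ∧ IsCoprime D (discriminant g f) ∧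
    NoTwoPart k (twist K f D) ∧ SelmerTrivial k (twist K f D)}

variable {K}

theorem selmerTrivial_of {f : k[X][X]} (h : Pool.Agent.N352.PJ.SelZero K f) :
    SelmerTrivial k (f.map (algebraMap k[X] K)) := by
  intro a h1 h2 h3
  refine h a h1 h2 fun v => ?_
  have h4 := h3 v
  unfold LocalImage PointImage at h4
  rw [Polynomial.map_map] at h4
  exact h4

theorem coeff_atInfinity (g M : ℕ) (f : k[X][X]) (i : ℕ) : (atInfinity g M f).coeff i =
    if i = 2 * g + 1 then 1 else if i ≤ 2 * g then (f.coeff i).coeff (M * (2 * g + 1 - i)) else 0 := by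
  unfold atInfinity
  rw [coeff_add, coeff_X_pow, finset_sum_coeff]
  simp only [coeff_C_mul, coeff_X_pow]
  by_cases h1 : i = 2 * g + 1
  · rw [if_pos h1, if_pos h1, Finset.sum_eq_zero, add_zero]
    intro j hj
    rw [if_neg (by have := Finset.mem_range.1 hj; omega), mul_zero]
  · rw [if_neg h1, if_neg h1, zero_add]
    by_cases h2 : i ≤ 2 * g
    · rw [if_pos h2, Finset.sum_eq_single i]
      · rw [if_pos rfl, mul_one]
      · intro j _ hj
        rw [if_neg (Ne.symm hj), mul_zero]
      · intro hi
        exact absurd (Finset.mem_range.2 (by omega)) hi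
    · rw [if_neg h2, Finset.sum_eq_zero]
      intro j hj
      rw [if_neg (by have := Finset.mem_range.1 hj; omega), mul_zero]

theorem InFamily.fm [Finite k] {g N : ℕ} {f : k[X][X]} (h : InFamily g N f) (hg : 1 ≤ g)
    (hN : 1 ≤ N) (h2 : (2 : k) ≠ 0) : Run7.h784.TG.Fm g N (atInfinity g (2 * N) f) f := by
  have hd : (atInfinity g (2 * N) f).natDegree = 2 * g + 1 := by
    refine natDegree_eq_of_le_of_coeff_ne_zero (natDegree_le_iff_coeff_eq_zero.2 fun i hi => ?_) ?_
    · rw [coeff_atInfinity, if_neg (by omega), if_neg (by omega)]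
    · rw [coeff_atInfinity, if_pos rfl]
      exact one_ne_zero
  refine ⟨hg, hN, h2, ⟨?_, h.inert, hd, ?_⟩, ⟨⟨h.monic, h.degree, h.trace, h.height⟩, ?_, ?_,
    h.squarefree⟩⟩
  · rw [Monic, leadingCoeff, hd, coeff_atInfinity, if_pos rfl]
  · rw [coeff_atInfinity, if_neg (by omega), if_pos le_rfl, h.trace, coeff_zero]
  · intro j hj
    rw [coeff_atInfinity, if_neg (by omega), if_pos hj]
  · intro Q hQ
    exact absurd hQ (Finset.notMem_empty Q)

theorem InFamily.of_fm {g N : ℕ} {r : k[X]} {f : k[X][X]} (hr : Pool.Agent.N352.PJ.GoodR g r)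
    {S : Finset k[X]} {h : k[X] → k[X][X]} (hf : Pool.Agent.N352.PJ.Fam g N r S h f) :
    InFamily g N f := by
  have h1 : atInfinity g (2 * N) f = r := by
    ext i
    rw [coeff_atInfinity]
    by_cases h1 : i = 2 * g + 1
    · rw [if_pos h1, h1]
      have h3 := hr.1.coeff_natDegree
      rw [hr.2.2.1] at h3
      exact h3.symm
    · rw [if_neg h1]
      by_cases h2 : i ≤ 2 * g
      · rw [if_pos h2, hf.inf i h2]
      · rw [if_neg h2, coeff_eq_zero_of_natDegree_lt (by rw [hr.2.2.1]; omega)]
  exact ⟨⟨hf.ht.mon, hf.ht.deg, hf.ht.tr, hf.ht.ht⟩, by rw [h1]; exact hr.2.1, hf.sq⟩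

/-- One leading coefficient. -/
theorem one [Finite k] (h2 : (2 : k) ≠ 0) {g N : ℕ} (hg : 1 ≤ g) (hN : 1 ≤ N) {f : k[X][X]}
    (hf : InFamily g N f) (u : k) (hu : u ≠ 0) :
    ∃ c : ℝ, 0 < c ∧ ∀ᶠ m : ℕ in atTop,
      c * (Nat.card k : ℝ) ^ m ≤ ((GoodTwists K g f u m).ncard : ℝ) := by
  have hF := hf.fm hg hN h2
  obtain ⟨c, hc, N₀, h⟩ := Run7.h784.TG.fin k g N _ _ (Run7.h784.TG.fm_scale hF hu) K
  refine ⟨c, hc, ?_⟩
  filter_upwards [eventually_ge_atTop N₀] with m hm
  refine (h m hm).trans ?_
  have hCu : (C u : k[X]) ≠ 0 := C_ne_zero.2 hu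
  have hinj : Function.Injective (fun D : k[X] => C u * D) := mul_right_injective₀ hCu
  have h2K : (2 : K) ≠ 0 := by
    intro h0
    apply h2
    have h1 : Function.Injective ((algebraMap k[X] K).comp (C : k →+* k[X])) :=
      RingHom.injective _
    apply h1
    rw [map_zero, map_ofNat, h0]
  have hfin : (GoodTwists K g f u m).Finite := by
    refine Set.Finite.subset (s := {D : k[X] | D ∈ degreeLE k m}) ?_ ?_
    · haveI : Finite (degreeLT k (m + 1)) := Finite.of_equiv _ (degreeLTEquiv k (m + 1)).symm.toEquiv
      have h5 : {D : k[X] | D ∈ degreeLE k m} ⊆ ((degreeLT k (m + 1) : Submodule k k[X]) : Set k[X]) := by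
        intro D hD
        rw [SetLike.mem_coe, mem_degreeLT]
        have h6 := mem_degreeLE.1 hD
        exact lt_of_le_of_lt h6 (by exact_mod_cast Nat.lt_succ_self m)
      exact (Set.toFinite _).subset h5
    · intro D hD
      rw [Set.mem_setOf_eq, mem_degreeLE]
      exact natDegree_le_iff_degree_le.1 hD.2.1.le
  have hsub : (fun D : k[X] => C u * D) '' {D : k[X] | D.Monic ∧ D.natDegree = m ∧ Squarefree D ∧
      IsCoprime D (Pool.Agent.N352.PJ.dsc g (f.scaleRoots (C u))) ∧
      Pool.Agent.N352.PJ.SelZero K ((f.scaleRoots (C u)).scaleRoots D)} ⊆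
      GoodTwists K g f u m := by
    rintro _ ⟨D, ⟨hDm, hDd, hDs, hDc, hD⟩, rfl⟩
    have hD0 : C u * D ≠ 0 := mul_ne_zero hCu hDm.ne_zero
    have hunit : IsUnit (C u : k[X]) := isUnit_C.2 (isUnit_iff_ne_zero.2 hu)
    have hD' : Pool.Agent.N352.PJ.SelZero K (f.scaleRoots (C u * D)) := by
      rw [scaleRoots_mul]
      exact hD
    have hirk := Pool.Agent.N134.PJ.irk g k K f N (atInfinity g (2 * N) f) (C u * D) hF.fam.ht hF.gr
      hF.fam.inf hD0
    have hmon : (f.scaleRoots (C u * D)).Monic := (monic_scaleRoots_iff _).2 hf.monic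
    obtain ⟨hb, hs⟩ := Pool.Agent.N352.JB.fin h2K hmon hirk.2.1 (hirk.2.2 hF.fam.sq.ne_zero).2
      (by rw [natDegree_scaleRoots, hf.degree]; exact ⟨g, rfl⟩) hD'
    refine ⟨?_, ?_, ?_, ?_, ⟨hb, hs⟩, selmerTrivial_of hD'⟩
    · rw [leadingCoeff_mul, leadingCoeff_C, hDm.leadingCoeff, mul_one]
    · rw [natDegree_C_mul hu, hDd]
    · exact (Associated.squarefree_iff ⟨hunit.unit, by rw [IsUnit.unit_spec, mul_comm]⟩).1 hDs
    · rw [Run7.h784.TG.dsc_scale hf.monic hf.degree hCu] at hDc
      exact (isCoprime_mul_unit_left_left hunit _ _).2 hDc.of_mul_right_right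
  have h3 := Set.ncard_le_ncard hsub hfin
  rw [Set.ncard_image_of_injective _ hinj] at h3
  exact_mod_cast h3

end defs

/-- Let `k` be a finite field of odd characteristic with `q` elements, `K = k(t)`, `g ≥ 1`.
(1) For every `f` of the family (monic of degree `2 g + 1` over `k[t]`, `f_{2 g} = 0`,
`deg f_j ≤ 2 N (2 g + 1 - j)`, `N ≥ 1`, with squarefree discriminant and irreducible reduction at
infinity) there is `c > 0` such that for all large `m` and all `u ≠ 0` in `k` at least `c q ^ m` of the
`q ^ m` polynomials `D` over `k` of degree `m` with leading coefficient `u` are squarefree, prime to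
the discriminant, and the Jacobian of `D y ^ 2 = f(x)` over `K` has trivial 2-Selmer group, a group of
`K`-points uniquely divisible by two, and a Tate-Shafarevich group with trivial 2-primary part.
(2) If the characteristic is larger than `2 g + 1`, a positive proportion of all `f` with
`deg f_j ≤ 2 N (2 g + 1 - j)` belongs to the family. -/
theorem result (g : ℕ) (hg : 1 ≤ g) (k : Type) [Field k] [Finite k] (h2 : (2 : k) ≠ 0)
    (K : Type) [Field K] [Algebra k[X] K] [IsFractionRing k[X] K] :
    (∀ (N : ℕ) (f : k[X][X]), 1 ≤ N → InFamily g N f →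
      ∃ c : ℝ, 0 < c ∧ ∀ᶠ m : ℕ in atTop, ∀ u : k, u ≠ 0 →
        c * (Nat.card k : ℝ) ^ m ≤ ((GoodTwists K g f u m).ncard : ℝ)) ∧
    (((2 * g + 1).factorial : k) ≠ 0 → ∃ c : ℝ, 0 < c ∧ ∀ᶠ N : ℕ in atTop,
      0 < {f : k[X][X] | HasHeight g (2 * N) f}.ncard ∧
      c * ({f : k[X][X] | HasHeight g (2 * N) f}.ncard : ℝ) ≤
        ({f : k[X][X] | InFamily g N f}.ncard : ℝ)) := by
  refine ⟨fun N f hN hf => ?_, fun hp => ?_⟩
  · have h := fun u : kˣ => one (K := K) h2 hg hN hf (u : k) u.ne_zero
    choose c hc hcm using h
    haveI : Fintype kˣ := Fintype.ofFinite _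
    refine ⟨Finset.univ.inf' Finset.univ_nonempty c, ?_, ?_⟩
    · rw [Finset.lt_inf'_iff]
      exact fun u _ => hc u
    · filter_upwards [(eventually_all.2 hcm)] with m hm u hu
      refine le_trans ?_ (hm (Units.mk0 u hu))
      have h3 : Finset.univ.inf' Finset.univ_nonempty c ≤ c (Units.mk0 u hu) :=
        Finset.inf'_le _ (Finset.mem_univ _)
      exact mul_le_mul_of_nonneg_right h3 (by positivity)
  · obtain ⟨r, hr⟩ := Pool.Agent.N738.PJ.gr g k hp
    obtain ⟨c, hc, h⟩ := Pool.Agent.N615.JM.fam g k hg hp r hr
    obtain ⟨N₀, hN₀⟩ := h ∅ (fun _ => 0) (fun Q hQ => absurd hQ (Finset.notMem_empty Q))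
    have hq : (0 : ℝ) < Nat.card k := by exact_mod_cast Nat.card_pos
    refine ⟨c / (Nat.card k : ℝ) ^ (2 * g), by positivity, ?_⟩
    filter_upwards [eventually_ge_atTop N₀] with N hN
    have h1 := hN₀ N hN
    rw [Finset.prod_empty, Nat.cast_one, one_mul] at h1
    have hset : {f : k[X][X] | HasHeight g (2 * N) f} =
        {f : k[X][X] | Pool.Agent.N352.PJ.Ht g (2 * N) f} :=
      Set.ext fun f => ⟨fun h => ⟨h.monic, h.degree, h.trace, h.height⟩,
        fun h => ⟨h.mon, h.deg, h.tr, h.ht⟩⟩
    obtain ⟨hfin, hle⟩ := Pool.Agent.N415.PJMAIN.ht_card (k := k) g (2 * N)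
    have hsub : {f : k[X][X] | Pool.Agent.N352.PJ.Fam g N r ∅ (fun _ => 0) f} ⊆
        {f : k[X][X] | InFamily g N f} := fun f hf => InFamily.of_fm hr hf
    have hsub2 : {f : k[X][X] | InFamily g N f} ⊆ {f : k[X][X] | Pool.Agent.N352.PJ.Ht g (2 * N) f} :=
      fun f hf => ⟨hf.monic, hf.degree, hf.trace, hf.height⟩
    have h2 := Set.ncard_le_ncard hsub (hfin.subset hsub2)
    have h3 := Set.ncard_le_ncard hsub2 hfin
    rw [hset]
    have h4 : (0 : ℝ) < c * (Nat.card k : ℝ) ^ (2 * N * Pool.Agent.N352.PJ.dd g) := by positivity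
    have h5 : (({f : k[X][X] | Pool.Agent.N352.PJ.Fam g N r ∅ (fun _ => 0) f}.ncard : ℕ) : ℝ) ≤
        ({f : k[X][X] | InFamily g N f}.ncard : ℝ) := by exact_mod_cast h2
    refine ⟨?_, ?_⟩
    · have h6 : (0 : ℝ) < ({f : k[X][X] | InFamily g N f}.ncard : ℝ) := by linarith
      have h7 : 0 < {f : k[X][X] | InFamily g N f}.ncard := by exact_mod_cast h6
      omega
    · refine le_trans ?_ (h1.trans h5)
      have h8 : ({f : k[X][X] | Pool.Agent.N352.PJ.Ht g (2 * N) f}.ncard : ℝ) ≤
          (Nat.card k : ℝ) ^ (2 * N * Pool.Agent.N352.PJ.dd g + 2 * g) := by exact_mod_cast hle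
      refine (mul_le_mul_of_nonneg_left h8 (by positivity)).trans (le_of_eq ?_)
      rw [pow_add]
      field_simp

end Pool.Agent.Results.MP_60d5ce_nt.PositiveProportionOfTwists
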